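import Mathlib

/-!
# Semisimplicity from local monodromy: definitions
-/

namespace Pool.Agent.TH125.Sem

variable {K : Type*} [Field K] {V : Type*} [AddCommGroup V] [Module K V] {Γ : Type*} [Group Γ]

/-- The operator `(ρ g - 1) ^ m`. -/
noncomputable def mono (ρ : Representation K Γ V) (g : Γ) (m : ℕ) : Module.End K V :=
  (ρ g - 1) ^ m

/-- The subspace `W` is stable under the elements of `D`. -/
def Stable (ρ : Representation K Γ V) (D : Set Γ) (W : Submodule K V) : Prop :=
  ∀ d ∈ D, ∀ x ∈ W, ρ d x ∈ W

/-- `w` is nondegenerate, symmetric or alternating, and multiplied by `χ`. -/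
structure IsPairing (ρ : Representation K Γ V) (χ : Γ →* Kˣ) (w : LinearMap.BilinForm K V) :
    Prop where
  nondegenerate : w.Nondegenerate
  reflexive : w.IsSymm ∨ w.IsAlt
  act : ∀ g x y, w (ρ g x) (ρ g y) = (χ g : K) * w x y

/-- Every `d` in `D` conjugates `ρ g` to a power of `ρ g` (for instance, `g` is in the inertia group,
the wild inertia group acts trivially and `D` is contained in the decomposition group), `χ g = 1`,
and no nonzero subspace of the image of `N = (ρ g - 1) ^ m` which is stable under `D` is isotropic for the form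
`(N x, N y) ↦ w (N x, y)`. -/
structure IsAnisotropicAt (ρ : Representation K Γ V) (χ : Γ →* Kˣ) (w : LinearMap.BilinForm K V)
    (D : Set Γ) (g : Γ) (m : ℕ) : Prop where
  normalizes : ∀ d ∈ D, ∃ q : ℕ, ρ (d * g * d⁻¹) = ρ (g ^ q)
  trivial : χ g = 1
  anisotropic : ∀ T ≤ LinearMap.range (mono ρ g m), Stable ρ D T →
    (∀ x y, mono ρ g m x ∈ T → mono ρ g m y ∈ T → w (mono ρ g m x) y = 0) → T = ⊥

/-- A place: a subset `D` of the group, an element `g` and an exponent `m`. -/
structure Place (Γ : Type*) where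
  D : Set Γ
  g : Γ
  m : ℕ

/-- The sum of the images of the images of the operators `(ρ g - 1) ^ m` under all elements of the
group, for all the places. -/
def localSpan (ρ : Representation K Γ V) (P : Set (Place Γ)) : Submodule K V :=
  Submodule.span K {v | ∃ p ∈ P, ∃ γ x, v = ρ γ (mono ρ p.g p.m x)}

/-- `w` is anisotropic at all the places, and no nonzero stable isotropic subspace is orthogonal to
their span. -/
structure GeneratedByPlaces (ρ : Representation K Γ V) (χ : Γ →* Kˣ) (w : LinearMap.BilinForm K V)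
    (P : Set (Place Γ)) : Prop where
  anisotropic : ∀ p ∈ P, IsAnisotropicAt ρ χ w p.D p.g p.m
  rest : ∀ U : Submodule K V, Stable ρ Set.univ U → (∀ x ∈ U, ∀ y ∈ U, w x y = 0) →
    (∀ x ∈ U, ∀ y ∈ localSpan ρ P, w x y = 0) → U = ⊥

/-- `D` acts irreducibly on the image of `(ρ g - 1) ^ m`. -/
def IrreducibleAt (ρ : Representation K Γ V) (p : Place Γ) : Prop :=
  ∀ T ≤ LinearMap.range (mono ρ p.g p.m), Stable ρ p.D T →
    T = ⊥ ∨ T = LinearMap.range (mono ρ p.g p.m)

/-- Every stable subspace has a stable complement, which is orthogonal to it. -/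
def OrthSemisimple (ρ : Representation K Γ V) (w : LinearMap.BilinForm K V) : Prop :=
  ∀ W : Submodule K V, Stable ρ Set.univ W → ∃ W' : Submodule K V, Stable ρ Set.univ W' ∧
    IsCompl W W' ∧ ∀ x ∈ W, ∀ y ∈ W', w x y = 0

/-- The space is not the direct sum of more than `n` nonzero stable subspaces. -/
def AtMostSummands (ρ : Representation K Γ V) (n : ℕ) : Prop :=
  ∀ (k : ℕ) (W : Fin k → Submodule K V), (∀ i, Stable ρ Set.univ (W i)) → (∀ i, W i ≠ ⊥) →
    iSupIndep W → ⨆ i, W i = ⊤ → k ≤ n

end Pool.Agent.TH125.Sem
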