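import Pool.Agent.TH125.Sem.Def

/-!
# Semisimplicity from local monodromy
-/

namespace Pool.Agent.TH125.Sem

variable {K : Type*} [Field K] {V : Type*} [AddCommGroup V] [Module K V] {Γ : Type*} [Group Γ]

section

variable {ρ : Representation K Γ V} {χ : Γ →* Kˣ} {w : LinearMap.BilinForm K V}

theorem rho_inv (g : Γ) (x : V) : ρ g (ρ g⁻¹ x) = x := by
  rw [← Module.End.mul_apply, ← map_mul, mul_inv_cancel, map_one, Module.End.one_apply]

theorem rho_inv' (g : Γ) (x : V) : ρ g⁻¹ (ρ g x) = x := by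
  rw [← Module.End.mul_apply, ← map_mul, inv_mul_cancel, map_one, Module.End.one_apply]

theorem IsPairing.isRefl (hw : IsPairing ρ χ w) : w.IsRefl := by
  rcases hw.reflexive with h4 | h4
  · exact h4.isRefl
  · exact h4.isRefl

/-- the adjoint of `N` -/
theorem adj (hw : IsPairing ρ χ w) {g : Γ} (hg : χ g = 1) (m : ℕ) (x y : V) :
    w (mono ρ g m x) y = (-1) ^ m * w x (ρ (g⁻¹ ^ m) (mono ρ g m y)) := by
  have h1 : ∀ x y, w ((ρ g - 1) x) y = - w x (ρ g⁻¹ ((ρ g - 1) y)) := by
    intro x y
    have h2 := hw.act g x (ρ g⁻¹ y)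
    rw [rho_inv, hg, Units.val_one, one_mul] at h2
    rw [LinearMap.sub_apply, LinearMap.sub_apply, Module.End.one_apply, Module.End.one_apply,
      map_sub (ρ g⁻¹), rho_inv', map_sub w, LinearMap.sub_apply, h2, map_sub, neg_sub]
  have hcomm : ∀ (k : ℕ) (x : V), (ρ g - 1) (ρ (g⁻¹ ^ k) x) = ρ (g⁻¹ ^ k) ((ρ g - 1) x) := by
    intro k x
    rw [LinearMap.sub_apply, LinearMap.sub_apply, map_sub, Module.End.one_apply,
      Module.End.one_apply, ← Module.End.mul_apply, ← Module.End.mul_apply, ← map_mul, ← map_mul]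
    congr 3
    rw [inv_pow]
    exact ((Commute.refl g).pow_right k).inv_right
  induction m generalizing x y with
  | zero => simp [mono]
  | succ m ih =>
    have e1 : mono ρ g (m + 1) x = mono ρ g m ((ρ g - 1) x) := by
      rw [mono, pow_succ, Module.End.mul_apply]
      rfl
    have e2 : mono ρ g (m + 1) y = (ρ g - 1) (mono ρ g m y) := by
      rw [mono, pow_succ', Module.End.mul_apply]
      rfl
    rw [e1, e2, ih, h1, hcomm, pow_succ, pow_succ', map_mul, Module.End.mul_apply]
    ring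

theorem mono_mem {g : Γ} {U : Submodule K V} (hU : Stable ρ Set.univ U) (k : ℕ) {y : V}
    (hy : y ∈ U) : mono ρ g k y ∈ U := by
  induction k generalizing y with
  | zero =>
    rw [mono, pow_zero]
    exact hy
  | succ k ih =>
    rw [mono, pow_succ, Module.End.mul_apply]
    exact ih (Submodule.sub_mem _ (hU g trivial y hy) hy)

/-- The image of a stable subspace under `N` is stable under `D`. -/
theorem map_stable {D : Set Γ} {g : Γ} (hn : ∀ d ∈ D, ∃ q : ℕ, ρ (d * g * d⁻¹) = ρ (g ^ q)) (m : ℕ)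
    {U : Submodule K V} (hU : Stable ρ Set.univ U) : Stable ρ D (U.map (mono ρ g m)) := by
  rintro d hd _ ⟨y, hy, rfl⟩
  obtain ⟨q, hq⟩ := hn d hd
  -- `ρ d N y = (ρ (g ^ q) - 1) ^ m ρ d y`
  have h1 : ∀ (k : ℕ) (z : V), ρ d (mono ρ g k z) = ((ρ g ^ q - 1) ^ k) (ρ d z) := by
    intro k
    induction k with
    | zero => intro z; simp [mono]
    | succ k ih =>
      intro z
      rw [mono, pow_succ, Module.End.mul_apply, pow_succ, Module.End.mul_apply]
      have h2 := ih ((ρ g - 1) z)
      rw [mono] at h2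
      rw [h2]
      congr 1
      rw [LinearMap.sub_apply, LinearMap.sub_apply, Module.End.one_apply, Module.End.one_apply,
        map_sub, ← map_pow, ← hq, map_mul, map_mul, Module.End.mul_apply, Module.End.mul_apply,
        rho_inv']
  rw [h1]
  -- `g ^ q - 1` is a multiple of `g - 1`
  have h2 : (ρ g ^ q - 1) ^ m = (ρ g - 1) ^ m * (∑ i ∈ Finset.range q, ρ g ^ i) ^ m := by
    have h3 : Commute (ρ g - 1) (∑ i ∈ Finset.range q, ρ g ^ i) := by
      refine Commute.sum_right _ _ _ fun i _ => ?_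
      exact ((Commute.refl (ρ g)).pow_right i).sub_left (Commute.one_left _)
    rw [← h3.mul_pow, mul_geom_sum]
  rw [h2, Module.End.mul_apply]
  refine Submodule.mem_map_of_mem ?_
  have h4 : ∀ (k : ℕ) (z : V), z ∈ U → ((∑ i ∈ Finset.range q, ρ g ^ i) ^ k) z ∈ U := by
    intro k
    induction k with
    | zero => intro z hz; simpa using hz
    | succ k ih =>
      intro z hz
      rw [pow_succ, Module.End.mul_apply]
      apply ih
      rw [LinearMap.sum_apply]
      refine Submodule.sum_mem _ fun i _ => ?_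
      rw [← map_pow]
      exact hU _ trivial z hz
  exact h4 m _ (hU d trivial y hy)

/-- **Stable isotropic subspaces are killed by `N`.** -/
theorem kill (hw : IsPairing ρ χ w) {D : Set Γ} {g : Γ} {m : ℕ}
    (h : IsAnisotropicAt ρ χ w D g m) {U : Submodule K V} (hU : Stable ρ Set.univ U)
    (hiso : ∀ x ∈ U, ∀ y ∈ U, w x y = 0) {x : V} (hx : x ∈ U) : mono ρ g m x = 0 := by
  set T : Submodule K V := U.map (mono ρ g m) with hT
  have hzero : T = ⊥ := by
    refine h.anisotropic T ?_ (map_stable h.normalizes m hU) ?_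
    · rintro _ ⟨y, -, rfl⟩
      exact ⟨y, rfl⟩
    · rintro x y ⟨x', hx', hxx⟩ ⟨y', hy', hyy⟩
      rw [← hxx, adj hw h.trivial, ← hyy, ← adj hw h.trivial]
      exact hiso _ (mono_mem hU m hx') _ hy'
  have h5 : mono ρ g m x ∈ T := Submodule.mem_map_of_mem hx
  rw [hzero] at h5
  exact (Submodule.mem_bot K).1 h5

/-- Stable isotropic subspaces vanish. -/
theorem isotropic_zero (hw : IsPairing ρ χ w) {P : Set (Place Γ)}
    (h : GeneratedByPlaces ρ χ w P) {U : Submodule K V} (hU : Stable ρ Set.univ U)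
    (hiso : ∀ x ∈ U, ∀ y ∈ U, w x y = 0) : U = ⊥ := by
  refine h.rest U hU hiso fun x hx y hy => ?_
  induction hy using Submodule.span_induction with
  | mem y hy =>
    obtain ⟨p, hp, γ, z, rfl⟩ := hy
    have h1 : w x (ρ γ (mono ρ p.g p.m z)) = (χ γ : K) * w (ρ γ⁻¹ x) (mono ρ p.g p.m z) := by
      rw [← hw.act, rho_inv]
    rw [h1]
    have h2 : w (mono ρ p.g p.m z) (ρ γ⁻¹ x) = 0 := by
      rw [adj hw (h.anisotropic p hp).trivial, kill hw (h.anisotropic p hp) hU hiso
        (hU γ⁻¹ trivial x hx), map_zero, map_zero, mul_zero]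
    rw [hw.isRefl _ _ h2, mul_zero]
  | zero => rw [map_zero]
  | add y y' _ _ h1 h2 => rw [map_add, h1, h2, add_zero]
  | smul a y _ h1 => rw [map_smul, h1, smul_zero]

/-- **Semisimplicity.** -/
theorem semisimple [FiniteDimensional K V] (hw : IsPairing ρ χ w) {P : Set (Place Γ)}
    (h : GeneratedByPlaces ρ χ w P) : OrthSemisimple ρ w := by
  intro W hW
  have hrefl : w.IsRefl := hw.isRefl
  have horth : Stable ρ Set.univ (w.orthogonal W) := by
    intro g _ y hy x hx
    change w x (ρ g y) = 0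
    have h1 := hw.act g (ρ g⁻¹ x) y
    rw [rho_inv] at h1
    have h2 : w (ρ g⁻¹ x) y = 0 := hy _ (hW g⁻¹ trivial x hx)
    rw [h1, h2, mul_zero]
  refine ⟨w.orthogonal W, horth, ?_, fun x hx y hy => hy x hx⟩
  have h0 : W ⊓ w.orthogonal W = ⊥ := by
    refine isotropic_zero hw h (fun g hg x hx => ⟨hW g hg x hx.1, horth g hg x hx.2⟩) ?_
    intro x hx y hy
    exact hy.2 x hx.1
  exact (LinearMap.BilinForm.isCompl_orthogonal_iff_disjoint hrefl).2 (disjoint_iff.2 h0)

/-- **The number of summands.** -/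
theorem summands {P : Set (Place Γ)} (hP : P.Finite)
    (hn : ∀ p ∈ P, ∀ d ∈ p.D, ∃ q : ℕ, ρ (d * p.g * d⁻¹) = ρ (p.g ^ q))
    (hirr : ∀ p ∈ P, IrreducibleAt ρ p) (htop : localSpan ρ P = ⊤) :
    AtMostSummands ρ P.ncard := by
  intro k W hW h0 hind hsup
  -- every summand is detected by a place
  have hex : ∀ i, ∃ p ∈ P, (W i).map (mono ρ p.g p.m) ≠ ⊥ := by
    intro i
    by_contra hcon
    push Not at hcon
    have hle : ∀ p ∈ P, ∀ x, mono ρ p.g p.m x ∈ ⨆ j ≠ i, W j := by
      intro p hp x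
      have hx : x ∈ ⨆ j, W j := hsup ▸ Submodule.mem_top
      induction hx using Submodule.iSup_induction' with
      | mem j x hx =>
        by_cases hj : j = i
        · subst hj
          have h1 : mono ρ p.g p.m x ∈ (W j).map (mono ρ p.g p.m) := Submodule.mem_map_of_mem hx
          rw [hcon p hp, Submodule.mem_bot] at h1
          rw [h1]
          exact Submodule.zero_mem _
        · exact (le_iSup₂_of_le (f := fun j (_ : j ≠ i) => W j) j hj le_rfl)
            (mono_mem (hW j) p.m hx)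
      | zero => rw [map_zero]; exact Submodule.zero_mem _
      | add x y _ _ hx hy => rw [map_add]; exact Submodule.add_mem _ hx hy
    have hstab : ∀ γ, ∀ x ∈ ⨆ j ≠ i, W j, ρ γ x ∈ ⨆ j ≠ i, W j := by
      intro γ x hx
      have h1 : (⨆ j ≠ i, W j).map (ρ γ) ≤ ⨆ j ≠ i, W j := by
        rw [Submodule.map_iSup]
        refine iSup_le fun j => ?_
        rw [Submodule.map_iSup]
        refine iSup_le fun hj => ?_
        refine le_trans ?_ (le_iSup₂_of_le (f := fun j (_ : j ≠ i) => W j) j hj le_rfl)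
        rintro _ ⟨y, hy, rfl⟩
        exact hW j γ trivial y hy
      exact h1 (Submodule.mem_map_of_mem hx)
    have hall : localSpan ρ P ≤ ⨆ j ≠ i, W j := by
      refine Submodule.span_le.2 ?_
      rintro _ ⟨p, hp, γ, x, rfl⟩
      exact hstab γ _ (hle p hp x)
    rw [htop, top_le_iff] at hall
    have h2 := hind i
    rw [hall] at h2
    exact h0 i (disjoint_top.1 h2)
  choose f hf hf' using hex
  have hrange : ∀ i, (W i).map (mono ρ (f i).g (f i).m) =
      LinearMap.range (mono ρ (f i).g (f i).m) := by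
    intro i
    refine ((hirr _ (hf i)) _ ?_ (map_stable (hn _ (hf i)) _ (hW i))).resolve_left (hf' i)
    rintro _ ⟨y, -, rfl⟩
    exact ⟨y, rfl⟩
  have hle : ∀ i, LinearMap.range (mono ρ (f i).g (f i).m) ≤ W i := by
    intro i
    rw [← hrange]
    rintro _ ⟨y, hy, rfl⟩
    exact mono_mem (hW i) _ hy
  have hinj : Function.Injective f := by
    intro i j hij
    by_contra hne
    have h1 : Disjoint (W i) (W j) := hind.pairwiseDisjoint hne
    have h2 := hle j
    rw [← hij] at h2
    have h3 := h1 (hle i) h2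
    apply hf' i
    rw [hrange]
    exact le_bot_iff.1 h3
  have h4 : k = (Set.range f).ncard := by
    rw [← Set.image_univ, Set.ncard_image_of_injective _ hinj, Set.ncard_univ, Nat.card_fin]
  rw [h4]
  exact Set.ncard_le_ncard (Set.range_subset_iff.2 hf) hP

end

end Pool.Agent.TH125.Sem
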