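import Pool.Agent.TH125.Sem.TestDef
import Pool.Agent.TH125.Sem.Main

/-!
# Semisimplicity from Hodge-Tate weights
-/

namespace Pool.Agent.TH125.Sem

variable {K : Type*} [Field K] {V : Type*} [AddCommGroup V] [Module K V] {Γ : Type*} [Group Γ]
  {ρ : Representation K Γ V} {χ : Γ →* Kˣ} {w : LinearMap.BilinForm K V}

theorem orth_stable (hw : IsPairing ρ χ w) {W : Submodule K V} (hW : Stable ρ Set.univ W) :
    Stable ρ Set.univ (w.orthogonal W) := by
  intro g _ y hy x hx
  change w x (ρ g y) = 0
  have h1 := hw.act g (ρ g⁻¹ x) y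
  rw [rho_inv] at h1
  have h2 : w (ρ g⁻¹ x) y = 0 := hy _ (hW g⁻¹ trivial x hx)
  rw [h1, h2, mul_zero]

/-- Semisimplicity if all stable isotropic subspaces vanish. -/
theorem semisimple_of [FiniteDimensional K V] (hw : IsPairing ρ χ w)
    (h : ∀ U : Submodule K V, Stable ρ Set.univ U → (∀ x ∈ U, ∀ y ∈ U, w x y = 0) → U = ⊥) :
    OrthSemisimple ρ w := by
  intro W hW
  have hrefl : w.IsRefl := hw.isRefl
  have horth := orth_stable hw hW
  refine ⟨w.orthogonal W, horth, ?_, fun x hx y hy => hy x hx⟩
  have h0 : W ⊓ w.orthogonal W = ⊥ := by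
    refine h _ (fun g hg x hx => ⟨hW g hg x hx.1, horth g hg x hx.2⟩) ?_
    intro x hx y hy
    exact hy.2 x hx.1
  exact (LinearMap.BilinForm.isCompl_orthogonal_iff_disjoint hrefl).2 (disjoint_iff.2 h0)

/-- **The dimension of a stable isotropic subspace is not excluded.** -/
theorem not_excludes (hw : IsPairing ρ χ w) {A : Type} {star : A → A} {bal : Multiset A → Prop}
    {t : Submodule K V → Multiset A} (ht : IsTest ρ w star bal t) {U : Submodule K V}
    (hU : Stable ρ Set.univ U) (hiso : ∀ x ∈ U, ∀ y ∈ U, w x y = 0) :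
    ¬ Excludes star bal (t ⊤) (Module.finrank K U) := by
  intro h
  refine h (t U) (ht.card U hU) ?_ (ht.balanced U hU)
  rw [ht.dual U hU]
  refine Multiset.add_le_add_right (ht.mono _ _ hU (orth_stable hw hU) ?_)
  intro x hx y hy
  exact hiso y hy x hx

/-- An isotropic subspace has dimension at most half of the dimension of the space. -/
theorem finrank_isotropic [FiniteDimensional K V] (hw : IsPairing ρ χ w) {U : Submodule K V}
    (hiso : ∀ x ∈ U, ∀ y ∈ U, w x y = 0) :
    2 * Module.finrank K U ≤ Module.finrank K V := by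
  have h1 : U ≤ w.orthogonal U := fun x hx y hy => hiso y hy x hx
  have h2 := Submodule.finrank_mono h1
  have h3 := LinearMap.BilinForm.finrank_orthogonal hw.nondegenerate U
  omega

/-- The codimension of the span of the local pieces. -/
theorem finrank_le_codim [FiniteDimensional K V] (hw : IsPairing ρ χ w) {P : Set (Place Γ)}
    (h : ∀ p ∈ P, IsAnisotropicAt ρ χ w p.D p.g p.m) {U : Submodule K V}
    (hU : Stable ρ Set.univ U) (hiso : ∀ x ∈ U, ∀ y ∈ U, w x y = 0) :
    Module.finrank K U + Module.finrank K (localSpan ρ P) ≤ Module.finrank K V := by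
  have h1 : U ≤ w.orthogonal (localSpan ρ P) := by
    intro x hx y hy
    change w y x = 0
    refine hw.isRefl _ _ ?_
    induction hy using Submodule.span_induction with
    | mem y hy =>
      obtain ⟨p, hp, γ, z, rfl⟩ := hy
      have h1 : w x (ρ γ (mono ρ p.g p.m z)) = (χ γ : K) * w (ρ γ⁻¹ x) (mono ρ p.g p.m z) := by
        rw [← hw.act, rho_inv]
      rw [h1]
      have h2 : w (mono ρ p.g p.m z) (ρ γ⁻¹ x) = 0 := by
        rw [adj hw (h p hp).trivial, kill hw (h p hp) hU hiso
          (hU γ⁻¹ trivial x hx), map_zero, map_zero, mul_zero]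
      rw [hw.isRefl _ _ h2, mul_zero]
    | zero => rw [map_zero]
    | add y y' _ _ h1 h2 => rw [map_add, h1, h2, add_zero]
    | smul a y _ h1 => rw [map_smul, h1, smul_zero]
  have h2 := Submodule.finrank_mono h1
  have h3 := LinearMap.BilinForm.finrank_orthogonal hw.nondegenerate (localSpan ρ P)
  have h4 := Submodule.finrank_le (localSpan ρ P)
  omega

/-- **Semisimplicity from Hodge-Tate weights, Frobenius eigenvalues and local monodromy.** -/
theorem semisimple_tests [FiniteDimensional K V] (hw : IsPairing ρ χ w) {i : ℤ}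
    {ht : Submodule K V → Multiset ℤ} {ι : Type} {q : ι → ℕ}
    {fr : ι → Submodule K V → Multiset ℂ} (hT : AreTests ρ w i ht q fr) {P : Set (Place Γ)}
    (hP : ∀ p ∈ P, IsAnisotropicAt ρ χ w p.D p.g p.m)
    (h : ∀ r : ℕ, 1 ≤ r → 2 * r ≤ Module.finrank K V →
      r + Module.finrank K (localSpan ρ P) ≤ Module.finrank K V →
      IsExcluded i (ht ⊤) q (fun j => fr j ⊤) r) :
    OrthSemisimple ρ w := by
  refine semisimple_of hw fun U hU hiso => ?_
  by_contra hne
  have h1 : 1 ≤ Module.finrank K U := Submodule.one_le_finrank_iff.2 hne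
  rcases h _ h1 (finrank_isotropic hw hiso) (finrank_le_codim hw hP hU hiso) with h2 | ⟨j, h2⟩
  · exact not_excludes hw hT.hodgeTate hU hiso h2
  · exact not_excludes hw (hT.frobenius j) hU hiso h2

/-- **Few weights without multiplicities.** -/
theorem excludes_of_few {i : ℤ} {M : Multiset ℤ} (hM : FewWeights i M) {r : ℕ} (hr : 1 ≤ r) :
    Excludes (htStar i) (balanced i) M r := by
  obtain ⟨hM, hc7, hc5⟩ := hM
  intro S hS hle hbal
  have hnd : (S + S.map (htStar i)).Nodup := Multiset.nodup_of_le hle hM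
  have hcard := Multiset.card_le_card hle
  rw [Multiset.card_add, Multiset.card_map, hS] at hcard
  rw [balanced, hS] at hbal
  rw [Multiset.nodup_add] at hnd
  obtain ⟨-, -, hdis⟩ := hnd
  rw [Multiset.disjoint_left] at hdis
  have hr3 : r ≤ 3 := by omega
  interval_cases r
  · obtain ⟨a, rfl⟩ := Multiset.card_eq_one.1 hS
    have h1 : i - a = a := by
      simp at hbal
      omega
    exact hdis (Multiset.mem_singleton_self a) (Multiset.mem_map.2 ⟨a, by simp, h1⟩)
  · obtain ⟨a, b, rfl⟩ := Multiset.card_eq_two.1 hS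
    have h1 : i - b = a := by
      simp at hbal
      omega
    exact hdis (a := a) (by simp) (Multiset.mem_map.2 ⟨b, by simp, h1⟩)
  · rcases Int.even_or_odd i with hi | hi
    · have := hc5 hi
      omega
    · obtain ⟨k, rfl⟩ := hi
      push_cast at hbal
      omega

/-- **Semisimplicity for few Hodge-Tate weights.** -/
theorem semisimple_few [FiniteDimensional K V] (hw : IsPairing ρ χ w) {i : ℤ}
    {ht : Submodule K V → Multiset ℤ} {ι : Type} {q : ι → ℕ}
    {fr : ι → Submodule K V → Multiset ℂ} (hT : AreTests ρ w i ht q fr)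
    (h : FewWeights i (ht ⊤)) : OrthSemisimple ρ w :=
  semisimple_tests hw hT (P := ∅) (fun _ hp => absurd hp (Set.notMem_empty _))
    fun _ hr _ _ => Or.inl (excludes_of_few h hr)

end Pool.Agent.TH125.Sem
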