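import Pool.Agent.TH125.Sem.Def

/-!
# Semisimplicity from Hodge-Tate weights, Frobenius eigenvalues and local monodromy: definitions
-/

namespace Pool.Agent.TH125.Sem

variable {K : Type*} [Field K] {V : Type*} [AddCommGroup V] [Module K V] {Γ : Type*} [Group Γ]

/-- A test: to every stable subspace `W` belongs a multiset `t W` with `dim W` elements, such that
the elements for a subspace are among those for a larger one; as `V / W^⊥` is a twisted dual of `W`,
the elements for `V` are those for `W^⊥` and the reflections `star a` of the elements `a` for `W`;
all `t W` satisfy the condition `bal` (a consequence of what is known on the determinant of `W`).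
Examples: the Hodge-Tate weights, see `balanced`; the eigenvalues of a Frobenius element, see
`frobBalanced`. -/
structure IsTest (ρ : Representation K Γ V) (w : LinearMap.BilinForm K V) {A : Type}
    (star : A → A) (bal : Multiset A → Prop) (t : Submodule K V → Multiset A) : Prop where
  card : ∀ W, Stable ρ Set.univ W → (t W).card = Module.finrank K W
  mono : ∀ W W', Stable ρ Set.univ W → Stable ρ Set.univ W' → W ≤ W' → t W ≤ t W'
  dual : ∀ W, Stable ρ Set.univ W → t ⊤ = t (w.orthogonal W) + (t W).map star
  balanced : ∀ W, Stable ρ Set.univ W → bal (t W)

/-- No submultiset of `M` which is the sum of a multiset `S` with `r` elements and of its reflection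
has the property that `S` satisfies the condition `bal`. -/
def Excludes {A : Type} (star : A → A) (bal : Multiset A → Prop) (M : Multiset A) (r : ℕ) : Prop :=
  ∀ S : Multiset A, S.card = r → S + S.map star ≤ M → ¬ bal S

/-- The reflection of Hodge-Tate weights: the twisted dual of a representation with the weight `a` has
the weight `i - a`. -/
def htStar (i : ℤ) (a : ℤ) : ℤ := i - a

/-- The mean value of the elements of `S` is `i / 2`. This is the condition for the Hodge-Tate
weights of the subrepresentations of a representation of weight `i` of the Galois group of a number
field with a real place: their determinants are powers of the cyclotomic character, up to characters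
of finite order. -/
def balanced (i : ℤ) (S : Multiset ℤ) : Prop := 2 * S.sum = i * S.card

/-- The reflection of Frobenius eigenvalues. -/
noncomputable def frobStar (q : ℕ) (i : ℤ) (z : ℂ) : ℂ := (q : ℂ) ^ i / z

/-- The product of the elements of `S` is `q ^ (i r / 2)`, up to a root of unity, where `r` is the
number of elements. -/
def frobBalanced (q : ℕ) (i : ℤ) (S : Multiset ℂ) : Prop :=
  ∃ m ≥ 1, S.prod ^ (2 * m) = (q : ℂ) ^ (i * S.card * m)

/-- The maps `ht` and `fr j` are tests, as for the Hodge-Tate weights and the eigenvalues of
Frobenius elements at places with `q j` elements in the residue field. -/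
structure AreTests (ρ : Representation K Γ V) (w : LinearMap.BilinForm K V) (i : ℤ)
    (ht : Submodule K V → Multiset ℤ) {ι : Type} (q : ι → ℕ)
    (fr : ι → Submodule K V → Multiset ℂ) : Prop where
  hodgeTate : IsTest ρ w (htStar i) (balanced i) ht
  frobenius : ∀ j, IsTest ρ w (frobStar (q j) i) (frobBalanced (q j) i) (fr j)

/-- The number `r` is excluded by the Hodge-Tate weights or by one of the Frobenius elements. -/
def IsExcluded (i : ℤ) (ht : Multiset ℤ) {ι : Type} (q : ι → ℕ) (fr : ι → Multiset ℂ) (r : ℕ) :
    Prop :=
  Excludes (htStar i) (balanced i) ht r ∨
    ∃ j, Excludes (frobStar (q j) i) (frobBalanced (q j) i) (fr j) r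

/-- There are at most seven Hodge-Tate weights if `i` is odd and at most five if `i` is even, and
they have multiplicity one. -/
def FewWeights (i : ℤ) (ht : Multiset ℤ) : Prop :=
  ht.Nodup ∧ ht.card ≤ 7 ∧ (Even i → ht.card ≤ 5)

end Pool.Agent.TH125.Sem
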